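import Pool.Agent.Work.MP_62a643_lc.Main
import Pool.Agent.Work.MP_62a643_lc.TimeC
import Pool.Agent.Work.PolyTime.NPClose

/-!
The tree search problem (average case, with arbitrary costs and weights written in binary) has a
polynomial-time approximation scheme.

Definitions: decision trees `IsDecisionTree`, trees `IsTreeOn` and the cost `cost` are defined in
`Pool.Agent.Work.MP_62a643_lc.Defs`; polynomial-time computability `PolyTimeComputable` (with the
machines `Turing.TM2ComputableInPolyTime` of Mathlib) in `Pool.Agent.Work.PolyTime.ETR`.
-/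

set_option autoImplicit false

namespace Pool.Agent.Results.MP_62a643_lc.Scheme

open Pool.Agent.Work.PolyTime
open Pool.Agent.Work.MP_62a643_lc

/-! Encoding of instances and of decision trees by bit strings. -/

/-- A number is written in unary, `n` as `1010...100`. -/
def encNum : ℕ → List Bool
  | 0 => [false]
  | n + 1 => true :: false :: encNum n

/-- A list is written by writing `1` before (the encoding of) each of its elements and `0` at the
end. -/
def encList {β : Type} (enc : β → List Bool) : List β → List Bool
  | [] => [false]
  | b :: l => true :: (enc b ++ encList enc l)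

/-- The code of a pair of numbers. -/
def encPair (e : ℕ × ℕ) : List Bool := true :: (encNum e.1 ++ encNum e.2)

/-- The code of a binary digit. -/
def encBit : Bool → List Bool
  | false => [false]
  | true => [true, false, false]

/-- The bit string of an instance: the number `n` of vertices (in unary; the vertices are
`0, …, n - 1`), the list of the edges, the list of the costs and the list of the weights of the
vertices, which are lists of binary digits. -/
def encInst (n : ℕ) (E : List (ℕ × ℕ)) (C W : List (List Bool)) : List Bool :=
  true :: (encNum n ++ true :: (encList encPair E ++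
    true :: (encList (encList encBit) C ++ encList (encList encBit) W)))

/-- The bit string of a decision tree (of a forest). -/
def encStrat : Strat → List Bool
  | Strat.nil => [false]
  | Strat.cons q sub rest => true :: (encNum q ++ true :: (encStrat sub ++ encStrat rest))

/-! The encoding is the one used in the proof. -/

theorem encNum_eq (n : ℕ) : encNum n = (code n).ser := by
  induction n with
  | zero => rfl
  | succ n ih => rw [encNum, ih]; rfl

theorem encList_eq {β : Type} [Code β] (enc : β → List Bool) (h : ∀ b, enc b = (code b).ser)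
    (l : List β) : encList enc l = (code l).ser := by
  induction l with
  | nil => rfl
  | cons b l ih =>
    rw [encList, ih, h]
    rfl

theorem encPair_eq (e : ℕ × ℕ) : encPair e = (code e).ser := by
  rw [encPair, encNum_eq, encNum_eq]
  rfl

theorem encBit_eq (b : Bool) : encBit b = (code b).ser := by
  cases b <;> rfl

theorem encInst_eq (n : ℕ) (E : List (ℕ × ℕ)) (C W : List (List Bool)) :
    encInst n E C W = (code ((n, E, C, W) : Inst)).ser := by
  rw [encInst, encNum_eq, encList_eq encPair encPair_eq,
    encList_eq (encList encBit) (encList_eq encBit encBit_eq),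
    encList_eq (encList encBit) (encList_eq encBit encBit_eq)]
  rfl

theorem encStrat_eq (D : Strat) : encStrat D = (code D).ser := by
  induction D with
  | nil => rfl
  | cons q s r ihs ihr =>
    rw [encStrat, ihs, ihr, encNum_eq]
    rfl

/-- A function computed in polynomial time on instances gives a function on words. -/
theorem word_fun {g : Inst → Strat} (hg : PTime g) : ∃ f : List Bool → List Bool,
    PolyTimeComputable f ∧ ∀ (n : ℕ) (E : List (ℕ × ℕ)) (C W : List (List Bool)),
      f (encInst n E C W) = encStrat (g (n, E, C, W)) := by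
  refine ⟨fun w => ((parseW Inst w).bind fun b => some ((code (g b)).ser)).getD [], ?_, ?_⟩
  · refine polyTimeComputable_of_PTime_word ?_
    exact PTime.getD (PTime.bind (PTime.parseW PTime.id)
      (PTime.mkSome (f := fun y : List Bool × Inst => (code (g y.2)).ser)
        (PTime.treeSer (hg.comp PTime.snd).code))) (PTime.const [])
  · intro n E C W
    simp only [encInst_eq, encStrat_eq, parseW_ser, Option.bind_some, Option.getD_some]

/-- **Main theorem.** For every `α > 1` there is a factor-`α` approximation algorithm for the tree
search problem, that is, the problem has a polynomial-time approximation scheme. -/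
theorem result (α : ℝ) (hα : 1 < α) : ∃ f : List Bool → List Bool, PolyTimeComputable f ∧
    ∀ (n : ℕ) (E : List (ℕ × ℕ)) (C W : List (List Bool)), IsTreeOn n E →
      ∃ D : Strat, f (encInst n E C W) = encStrat D ∧ IsDecisionTree n E D ∧
        ∀ D' : Strat, IsDecisionTree n E D' → (cost n C W D : ℝ) ≤ α * cost n C W D' := by
  -- the parameters
  obtain ⟨M, hM2, hM⟩ : ∃ M : ℕ, 2 ≤ M ∧ (1 + 1 / (M : ℝ)) ^ 3 ≤ α := by
    have h1 : Filter.Tendsto (fun M : ℕ => (1 + 1 / (M : ℝ)) ^ 3) Filter.atTop
        (nhds ((1 + 0) ^ 3)) :=
      (tendsto_const_nhds.add tendsto_one_div_atTop_nhds_zero_nat).pow 3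
    have h2 : ((1 : ℝ) + 0) ^ 3 < α := by simpa using hα
    obtain ⟨M, h3, h4⟩ := ((h1.eventually (gt_mem_nhds h2)).and
      (Filter.eventually_ge_atTop 2)).exists
    exact ⟨M, h4, h3.le⟩
  obtain ⟨f, hf, hfe⟩ := word_fun (ptime_algo M (2 * M) (PTime.id (α := Inst)))
  refine ⟨f, hf, fun n E C W hT => ?_⟩
  obtain ⟨h1, h2⟩ := algo_spec (M := M) (B := 2 * M) hM2 (by omega) (n, E, C, W) hT
  refine ⟨_, hfe n E C W, h1, fun D' hD' => ?_⟩
  have h3 := h2 D' hD'
  simp only at h3
  set a : ℕ := cost n C W (algo M (2 * M) (n, E, C, W)) with ha
  set b : ℕ := cost n C W D' with hb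
  have h4 : (M : ℝ) * (M * (2 * M * a)) ≤ (M + 1) * ((M + 1) * ((2 * M + 2) * b)) := by
    exact_mod_cast h3
  have hMpos : (0 : ℝ) < M := by
    have : 0 < M := by omega
    exact_mod_cast this
  have h5 : (1 + 1 / (M : ℝ)) ^ 3 = (M + 1) ^ 3 / M ^ 3 := by
    field_simp
  rw [h5, div_le_iff₀ (by positivity)] at hM
  have h6 : (M : ℝ) ^ 3 * a ≤ (M + 1) ^ 3 * b := by nlinarith
  have h7 : (M : ℝ) ^ 3 * a ≤ (M : ℝ) ^ 3 * (α * b) := by
    calc (M : ℝ) ^ 3 * a ≤ (M + 1) ^ 3 * b := h6
      _ ≤ (α * M ^ 3) * b := by gcongr
      _ = (M : ℝ) ^ 3 * (α * b) := by ring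
  exact le_of_mul_le_mul_left h7 (by positivity)

end Pool.Agent.Results.MP_62a643_lc.Scheme
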